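import Mathlib

set_option autoImplicit false

namespace Pool.Agent.Results.MP_ba261c_co.Crit

def Realizer (P : Type) [PartialOrder P] (k : ℕ) : Prop :=
  ∃ L : Fin k → P → P → Prop, (∀ i, IsLinearOrder P (L i)) ∧ ∀ a b, a ≤ b ↔ ∀ i, L i a b

noncomputable def dim (P : Type) [PartialOrder P] : ℕ := sInf {k | Realizer P k}

def Irred (P : Type) [PartialOrder P] : Prop := ∀ x : P, dim {y : P // y ≠ x} < dim P

def JoinIrr {P : Type} [PartialOrder P] (a : P) : Prop := ∀ S : Set P, IsLUB S a → a ∈ S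

def MeetIrr {P : Type} [PartialOrder P] (a : P) : Prop := ∀ S : Set P, IsGLB S a → a ∈ S

def CritPair {P : Type} [PartialOrder P] (a b : P) : Prop :=
  ¬ a ≤ b ∧ ¬ b ≤ a ∧ (∀ z, a < z → b < z) ∧ (∀ z, z < b → z < a)

lemma exists_real (P : Type) [PartialOrder P] [Finite P] : ∃ k, Realizer P k := by
  classical
  have h : ∀ p : P × P, ∃ L : P → P → Prop, IsLinearOrder P L ∧ (∀ a b, a ≤ b → L a b) ∧
      (¬ p.1 ≤ p.2 → L p.2 p.1) := by
    rintro ⟨u, v⟩
    by_cases huv : u ≤ v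
    · obtain ⟨L, hL, h⟩ := extend_partialOrder (α := P) (· ≤ ·)
      exact ⟨L, hL, fun a b hab => h a b hab, fun h' => absurd huv h'⟩
    · let r : P → P → Prop := fun a b => a ≤ b ∨ (a ≤ v ∧ u ≤ b)
      haveI : IsPartialOrder P r :=
        { refl := fun a => Or.inl le_rfl
          trans := by
            rintro a b c (h1 | ⟨h1, h2⟩) (h3 | ⟨h3, h4⟩)
            · exact Or.inl (h1.trans h3)
            · exact Or.inr ⟨h1.trans h3, h4⟩
            · exact Or.inr ⟨h1, h2.trans h3⟩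
            · exact Or.inr ⟨h1, h4⟩
          antisymm := by
            rintro a b (h1 | ⟨h1, h2⟩) (h3 | ⟨h3, h4⟩)
            · exact le_antisymm h1 h3
            · exact absurd (h4.trans (h1.trans h3)) huv
            · exact absurd (h2.trans (h3.trans h1)) huv
            · exact absurd (h4.trans h1) huv }
      obtain ⟨L, hL, h⟩ := extend_partialOrder r
      exact ⟨L, hL, fun a b hab => h a b (Or.inl hab), fun _ => h v u (Or.inr ⟨le_rfl, le_rfl⟩)⟩
  choose L hL h1 h2 using h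
  obtain ⟨k, ⟨e⟩⟩ := Finite.exists_equiv_fin (P × P)
  refine ⟨k, fun i => L (e.symm i), fun i => hL _, fun a b => ⟨fun h i => h1 _ a b h, fun h => ?_⟩⟩
  by_contra hab
  have h3 := h (e (a, b))
  simp only [Equiv.symm_apply_apply] at h3
  haveI := hL (a, b)
  have h4 : a = b := antisymm (r := L (a, b)) h3 (h2 (a, b) hab)
  exact hab h4.le

lemma lift {P : Type} [PartialOrder P] (x u w : P) (hxu : x < u) (hup : ∀ z, x < z → u ≤ z)
    (hdn : ∀ z, z < u → z ≤ x) (hw : ¬ x ≤ w) (k : ℕ) (h : Realizer {y : P // y ≠ x} k) :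
    Realizer P k := by
  classical
  obtain ⟨L, hL, hR⟩ := h
  let f : P → {y : P // y ≠ x} := fun y => if h : y = x then ⟨u, hxu.ne'⟩ else ⟨y, h⟩
  have fx : f x = ⟨u, hxu.ne'⟩ := dif_pos rfl
  have fy : ∀ y (h : y ≠ x), f y = ⟨y, h⟩ := fun y h => dif_neg h
  have finj : ∀ a b, f a = f b → a = b ∨ (a = x ∧ b = u) ∨ (a = u ∧ b = x) := by
    intro a b hab
    by_cases ha : a = x <;> by_cases hb : b = x
    · exact Or.inl (ha.trans hb.symm)
    · rw [ha, fx, fy b hb] at hab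
      exact Or.inr (Or.inl ⟨ha, (congrArg Subtype.val hab).symm⟩)
    · rw [hb, fx, fy a ha] at hab
      exact Or.inr (Or.inr ⟨congrArg Subtype.val hab, hb⟩)
    · rw [fy a ha, fy b hb] at hab
      exact Or.inl (congrArg Subtype.val hab)
  have hk : Nonempty (Fin k) := by
    by_contra hn
    have hwx : w ≠ x := fun h => hw h.ge
    have := (hR ⟨u, hxu.ne'⟩ ⟨w, hwx⟩).2 fun i => absurd ⟨i⟩ hn
    exact hw (hxu.le.trans this)
  have hle : ∀ a b, a ≤ b ↔ f a ≤ f b ∧ ¬ (a = u ∧ b = x) := by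
    intro a b
    by_cases ha : a = x <;> by_cases hb : b = x
    · subst ha; subst hb
      exact ⟨fun _ => ⟨le_rfl, fun h => hxu.ne h.1⟩, fun _ => le_rfl⟩
    · rw [ha, fx, fy b hb]
      exact ⟨fun h => ⟨hup b (lt_of_le_of_ne h (Ne.symm hb)), fun h' => hb h'.2⟩,
        fun h => hxu.le.trans h.1⟩
    · rw [hb, fx, fy a ha]
      exact ⟨fun h => ⟨h.trans hxu.le, fun h' => not_le_of_gt hxu (h'.1 ▸ h)⟩,
        fun h => hdn a (lt_of_le_of_ne h.1 fun h' => h.2 ⟨h', rfl⟩)⟩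
    · rw [fy a ha, fy b hb]
      exact ⟨fun h => ⟨h, fun h' => hb h'.2⟩, fun h => h.1⟩
  refine ⟨fun i a b => L i (f a) (f b) ∧ ¬ (a = u ∧ b = x), fun i => ?_, fun a b => ?_⟩
  · haveI := hL i
    have hfu : f u = f x := by rw [fx, fy u hxu.ne']
    exact
      { refl := fun a => ⟨refl_of (L i) _, fun h => hxu.ne (h.2.symm.trans h.1)⟩
        trans := by
          rintro a b c ⟨h1, h2⟩ ⟨h3, h4⟩
          refine ⟨trans_of (L i) h1 h3, ?_⟩
          rintro ⟨rfl, rfl⟩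
          rw [← hfu] at h3
          rcases finj _ _ (antisymm_of (L i) h1 h3) with h | ⟨h, -⟩ | ⟨-, h⟩
          · exact h4 ⟨h.symm, rfl⟩
          · exact hxu.ne' h
          · exact h2 ⟨rfl, h⟩
        antisymm := by
          rintro a b ⟨h1, h2⟩ ⟨h3, h4⟩
          rcases finj _ _ (antisymm_of (L i) h1 h3) with h | ⟨h, h'⟩ | h
          · exact h
          · exact absurd ⟨h', h⟩ h4
          · exact absurd h h2
        total := by
          intro a b
          by_cases h1 : a = u ∧ b = x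
          · obtain ⟨rfl, rfl⟩ := h1
            exact Or.inr ⟨hfu ▸ refl_of (L i) _, fun h => hxu.ne h.1⟩
          by_cases h2 : b = u ∧ a = x
          · obtain ⟨rfl, rfl⟩ := h2
            exact Or.inl ⟨hfu ▸ refl_of (L i) _, fun h => hxu.ne h.1⟩
          rcases total_of (L i) (f a) (f b) with h | h
          · exact Or.inl ⟨h, h1⟩
          · exact Or.inr ⟨h, h2⟩ }
  · rw [hle, hR]
    exact ⟨fun h i => ⟨h.1 i, h.2⟩, fun h => ⟨fun i => (h i).1, (h hk.some).2⟩⟩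

lemma first {P : Type} [PartialOrder P] [Finite P] (x : P)
    (hI : ∃ k, Realizer {y : P // y ≠ x} k ∧ ¬ Realizer P k) (hJ : JoinIrr x) (hM : MeetIrr x) :
    ∃ b, CritPair x b := by
  obtain ⟨w, hw⟩ : ∃ w, ¬ x ≤ w := by
    by_contra hn
    push Not at hn
    exact hJ ∅ ⟨fun _ h => h.elim, fun w _ => hn w⟩
  by_cases hB : ∃ b, (∀ z, x < z → b ≤ z) ∧ ¬ b ≤ x ∧ ¬ x < b
  · obtain ⟨b, ⟨h1, h2, h3⟩, hmin⟩ := (wellFounded_lt (α := P)).has_min
      {b | (∀ z, x < z → b ≤ z) ∧ ¬ b ≤ x ∧ ¬ x < b} hB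
    have hxb : ¬ x ≤ b := fun h => h3 (lt_of_le_of_ne h fun h' => h2 h'.ge)
    refine ⟨b, hxb, h2, fun z hz => lt_of_le_of_ne (h1 z hz) fun h => h3 (h ▸ hz), fun z hz => ?_⟩
    by_contra hzx
    refine hmin z ⟨fun y hy => hz.le.trans (h1 y hy), fun h => hzx (lt_of_le_of_ne h ?_),
      fun h => h3 (h.trans hz)⟩ hz
    rintro rfl
    exact h3 hz
  · exfalso
    push Not at hB
    obtain ⟨u, hu1, hu2⟩ : ∃ u, (∀ z, x < z → u ≤ z) ∧ ¬ u ≤ x := by
      by_contra hn
      push Not at hn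
      exact lt_irrefl x (hM {z | x < z} ⟨fun z hz => le_of_lt hz, fun u hu => hn u fun z hz => hu hz⟩)
    have hxu := hB u hu1 hu2
    obtain ⟨k, h1, h2⟩ := hI
    refine h2 (lift x u w hxu hu1 (fun z hz => ?_) hw k h1)
    by_contra hzx
    exact not_le_of_gt hz (hu1 z (hB z (fun y hy => hz.le.trans (hu1 y hy)) hzx))

lemma dual {P : Type} [PartialOrder P] (k : ℕ) (h : Realizer P k) : Realizer Pᵒᵈ k := by
  obtain ⟨L, hL, hR⟩ := h
  refine ⟨fun i a b => L i b a, fun i => ?_, fun a b => hR b a⟩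
  haveI := hL i
  exact
    { refl := fun a => refl_of (L i) _
      trans := fun a b c h1 h2 => trans_of (L i) h2 h1
      antisymm := fun a b h1 h2 => antisymm_of (L i) h2 h1
      total := fun a b => total_of (L i) _ _ }

theorem result (P : Type) [PartialOrder P] [Finite P] (hP : Irred P) (x : P)
    (hJ : JoinIrr x) (hM : MeetIrr x) : (∃ b, CritPair x b) ∧ (∃ a, CritPair a x) := by
  have hI : ∃ k, Realizer {y : P // y ≠ x} k ∧ ¬ Realizer P k :=
    ⟨dim {y : P // y ≠ x}, Nat.sInf_mem (exists_real _), Nat.notMem_of_lt_sInf (hP x)⟩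
  refine ⟨first x hI hJ hM, ?_⟩
  obtain ⟨k, h1, h2⟩ := hI
  obtain ⟨b, hb1, hb2, hb3, hb4⟩ := first (P := Pᵒᵈ) (OrderDual.toDual x)
    ⟨k, dual k h1, fun h => h2 (dual k h)⟩ hM hJ
  exact ⟨OrderDual.ofDual b, hb1, hb2, hb4, hb3⟩

end Pool.Agent.Results.MP_ba261c_co.Crit
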